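import Mathlib

/-!
The sequence `log_p inj(H, G_p)` does not converge for the incidence graph `H` of the Hesse configuration
(9 points and 12 lines, the affine plane of order 3): a copy of this configuration in `PG(2, p)` exists if and only if
`p` is `3` or `p ≡ 1 (mod 3)`.
-/

set_option autoImplicit false
open Module Filter Topology

namespace Pool.Agent.Results.MP_5e7574_co.HesseConfiguration

/-- The subspaces of dimension `d` of the space `F³`: the points (`d = 1`) and the lines (`d = 2`) of `PG(2, F)`. -/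
def PG (F : Type) [Field F] (d : ℕ) : Type := {W : Submodule F (Fin 3 → F) // finrank F W = d}

/-- The number of the homomorphisms, injective on vertices, from the bipartite graph with classes `V₁`, `V₂` and edges
`E` into the incidence graph of the points and lines of the projective plane over `ℤ/p`. -/
noncomputable def inj {V₁ V₂ : Type} (E : V₁ → V₂ → Prop) (p : ℕ) [Fact p.Prime] : ℕ :=
  Nat.card {f : (V₁ → PG (ZMod p) 1) × (V₂ → PG (ZMod p) 2) //
    Function.Injective f.1 ∧ Function.Injective f.2 ∧ ∀ x y, E x y → (f.1 x).1 ≤ (f.2 y).1}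

/-- `log_p n`, with `log_p 0 = -∞` -/
noncomputable def logE (p n : ℕ) : EReal := if n = 0 then ⊥ else ((Real.logb p n : ℝ) : EReal)

/-- the `k`-th prime -/
noncomputable def pr (k : ℕ) : ℕ := Nat.nth Nat.Prime k

instance (k : ℕ) : Fact (pr k).Prime := ⟨Nat.prime_nth_prime k⟩

/-- the Hesse configuration: 9 points `(i, k)` and 12 lines `inl j`, `inr (a, b)` -/
def Hes : ZMod 3 × ZMod 3 → ZMod 3 ⊕ (ZMod 3 × ZMod 3) → Prop
  | (i, _), Sum.inl j => i = j
  | (i, k), Sum.inr (a, b) => (i = 0 ∧ a = b + k) ∨ (i = 1 ∧ b = k) ∨ (i = 2 ∧ a + k = 0)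

instance : ∀ x y, Decidable (Hes x y)
  | (i, _), Sum.inl j => inferInstanceAs (Decidable (i = j))
  | (i, k), Sum.inr (a, b) =>
    inferInstanceAs (Decidable ((i = 0 ∧ a = b + k) ∨ (i = 1 ∧ b = k) ∨ (i = 2 ∧ a + k = 0)))

section necessity

variable {F : Type} [Field F] (P : ZMod 3 × ZMod 3 → Submodule F (Fin 3 → F))
  (L : ZMod 3 ⊕ (ZMod 3 × ZMod 3) → Submodule F (Fin 3 → F))
  (hP : ∀ x, finrank F (P x) = 1) (hL : ∀ y, finrank F (L y) = 2) (hPi : Function.Injective P)
  (hLi : Function.Injective L) (hE : ∀ x y, Hes x y → P x ≤ L y)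

include hP in
theorem gen_span {x : ZMod 3 × ZMod 3} {u : Fin 3 → F} (hu : u ∈ P x) (hu0 : u ≠ 0) :
    P x = Submodule.span F {u} := by
  symm
  apply Submodule.eq_of_le_of_finrank_eq
  · rwa [Submodule.span_singleton_le_iff_mem]
  · rw [hP, finrank_span_singleton hu0]

include hP in
theorem exists_gen (x : ZMod 3 × ZMod 3) : ∃ u ∈ P x, u ≠ 0 := by
  have : P x ≠ ⊥ := by
    intro h
    have := hP x
    rw [h, finrank_bot] at this
    omega
  obtain ⟨u, hu, h0⟩ := Submodule.exists_mem_ne_zero_of_ne_bot this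
  exact ⟨u, hu, h0⟩

include hP hPi in
theorem indep {x y : ZMod 3 × ZMod 3} (hxy : x ≠ y) {u v : Fin 3 → F} (hu : u ∈ P x) (hu0 : u ≠ 0)
    (hv : v ∈ P y) (hv0 : v ≠ 0) {s t : F} (h : s • u + t • v = 0) : s = 0 ∧ t = 0 := by
  have hs : s = 0 := by
    by_contra hs
    apply hxy
    apply hPi
    rw [gen_span P hP hv hv0]
    apply Submodule.eq_of_le_of_finrank_eq
    · rw [gen_span P hP hu hu0, Submodule.span_singleton_le_iff_mem, Submodule.mem_span_singleton]
      refine ⟨-(s⁻¹ * t), ?_⟩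
      have h1 : s • u = -(t • v) := by rw [eq_neg_iff_add_eq_zero, h]
      have h2 : u = s⁻¹ • (s • u) := by rw [smul_smul, inv_mul_cancel₀ hs, one_smul]
      rw [h2, h1, smul_neg, smul_smul, neg_smul]
    · rw [hP, finrank_span_singleton hv0]
  refine ⟨hs, ?_⟩
  rw [hs, zero_smul, zero_add, smul_eq_zero] at h
  exact h.resolve_right hv0

include hP hL hPi hE in
theorem line_eq {x y : ZMod 3 × ZMod 3} {l : ZMod 3 ⊕ (ZMod 3 × ZMod 3)} (hxy : x ≠ y) (hx : Hes x l)
    (hy : Hes y l) {u v : Fin 3 → F} (hu : u ∈ P x) (hu0 : u ≠ 0) (hv : v ∈ P y) (hv0 : v ≠ 0) :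
    L l = Submodule.span F {u, v} := by
  symm
  apply Submodule.eq_of_le_of_finrank_eq
  · rw [Submodule.span_le]
    rintro w (rfl | rfl)
    · exact hE x l hx hu
    · exact hE y l hy hv
  · rw [hL]
    have hli : LinearIndependent F ![u, v] := by
      rw [LinearIndependent.pair_iff]
      intro s t h
      exact indep P hP hPi hxy hu hu0 hv hv0 h
    have h := finrank_span_eq_card hli
    have hr : Set.range ![u, v] = {u, v} := by
      ext w
      rw [Set.mem_range, Fin.exists_fin_two]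
      simp [eq_comm]
    rw [hr] at h
    simpa using h

include hP hL hPi hE in
/-- on a line of the configuration, normalised -/
theorem third {x y z : ZMod 3 × ZMod 3} (l : ZMod 3 ⊕ (ZMod 3 × ZMod 3)) (hxy : x ≠ y) (hxz : x ≠ z) (hyz : y ≠ z)
    (hx : Hes x l) (hy : Hes y l) (hz : Hes z l) {u v : Fin 3 → F} (hu : u ∈ P x) (hu0 : u ≠ 0) (hv : v ∈ P y)
    (hv0 : v ≠ 0) : ∃ t : F, u + t • v ∈ P z ∧ u + t • v ≠ 0 := by
  obtain ⟨w, hw, hw0⟩ := exists_gen P hP z
  have h1 := hE z l hz hw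
  rw [line_eq P L hP hL hPi hE hxy hx hy hu hu0 hv hv0, Submodule.mem_span_pair] at h1
  obtain ⟨a, b, hab⟩ := h1
  have ha : a ≠ 0 := by
    rintro rfl
    rw [zero_smul, zero_add] at hab
    have := indep P hP hPi hyz hv hv0 hw hw0 (s := b) (t := -1) (by rw [hab]; simp)
    exact one_ne_zero (neg_eq_zero.mp this.2)
  refine ⟨a⁻¹ * b, ?_, ?_⟩
  · have : u + (a⁻¹ * b) • v = a⁻¹ • w := by
      rw [← hab, smul_add, smul_smul, smul_smul, inv_mul_cancel₀ ha, one_smul]
    rw [this]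
    exact Submodule.smul_mem _ _ hw
  · intro h
    have := indep P hP hPi hxy hu hu0 hv hv0 (s := 1) (by rw [one_smul]; exact h)
    exact one_ne_zero this.1

include hP hL hPi hLi hE in
theorem not_on {x y z : ZMod 3 × ZMod 3} (l l' : ZMod 3 ⊕ (ZMod 3 × ZMod 3)) (hxy : x ≠ y) (hxz : x ≠ z)
    (hx : Hes x l) (hy : Hes y l) (hz : ¬ Hes z l) (hx' : Hes x l') (hz' : Hes z l')
    {u v w : Fin 3 → F} (hu : u ∈ P x) (hu0 : u ≠ 0) (hv : v ∈ P y) (hv0 : v ≠ 0) (hw : w ∈ P z) (hw0 : w ≠ 0) :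
    w ∉ Submodule.span F {u, v} := by
  intro h
  have h1 := line_eq P L hP hL hPi hE hxy hx hy hu hu0 hv hv0
  have h2 := line_eq P L hP hL hPi hE hxz hx' hz' hu hu0 hw hw0
  apply hz
  have : l' = l := by
    apply hLi
    apply Submodule.eq_of_le_of_finrank_eq
    · rw [h2, h1, Submodule.span_le]
      rintro t (rfl | rfl)
      · exact Submodule.subset_span (by simp)
      · exact h
    · rw [hL, hL]
  rwa [this] at hz'

include hP in
theorem prop {x : ZMod 3 × ZMod 3} {u v : Fin 3 → F} (hu : u ∈ P x) (hu0 : u ≠ 0) (hv : v ∈ P x) :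
    ∃ c : F, v = c • u := by
  rw [gen_span P hP hu hu0, Submodule.mem_span_singleton] at hv
  obtain ⟨c, hc⟩ := hv
  exact ⟨c, hc.symm⟩

include hP hL hPi hLi hE in
theorem root : ∃ f : F, f * (1 - f) = 1 := by
  obtain ⟨A₀, hA, hA0⟩ := exists_gen P hP (0, 0)
  obtain ⟨B₀, hB, hB0⟩ := exists_gen P hP (0, 1)
  obtain ⟨C₀, hC, hC0⟩ := exists_gen P hP (1, 0)
  obtain ⟨D₀, hD, hD0⟩ := exists_gen P hP (1, 1)
  -- the first three points are not on a line
  have nAB : C₀ ∉ Submodule.span F {A₀, B₀} := not_on P L hP hL hPi hLi hE (Sum.inl 0) (Sum.inr (0, 0)) (by decide)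
    (by decide) (by decide) (by decide) (by decide) (by decide) (by decide) hA hA0 hB hB0 hC hC0
  have hABC : ∀ x y z : F, x • A₀ + y • B₀ + z • C₀ = 0 → x = 0 ∧ y = 0 ∧ z = 0 := by
    intro x y z h
    have hz : z = 0 := by
      by_contra hz
      apply nAB
      rw [Submodule.mem_span_pair]
      refine ⟨-(z⁻¹ * x), -(z⁻¹ * y), ?_⟩
      have h1 : z • C₀ = -(x • A₀ + y • B₀) := by
        rw [eq_neg_iff_add_eq_zero, ← h]
        abel
      have h2 : C₀ = z⁻¹ • (z • C₀) := by rw [smul_smul, inv_mul_cancel₀ hz, one_smul]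
      rw [h2, h1]
      module
    subst hz
    rw [zero_smul, add_zero] at h
    obtain ⟨h1, h2⟩ := indep P hP hPi (by decide : ((0 : ZMod 3), (0 : ZMod 3)) ≠ (0, 1)) hA hA0 hB hB0 h
    exact ⟨h1, h2, rfl⟩
  -- so that they span the space
  obtain ⟨x, y, z, hxyz⟩ : ∃ x y z : F, D₀ = x • A₀ + y • B₀ + z • C₀ := by
    have hli : LinearIndependent F ![A₀, B₀, C₀] := by
      rw [Fintype.linearIndependent_iff]
      intro g hg
      rw [Fin.sum_univ_three] at hg
      obtain ⟨h1, h2, h3⟩ := hABC _ _ _ hg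
      intro i
      fin_cases i
      · exact h1
      · exact h2
      · exact h3
    have hsp := hli.span_eq_top_of_card_eq_finrank (by simp)
    have hD' : D₀ ∈ Submodule.span F (Set.range ![A₀, B₀, C₀]) := by rw [hsp]; trivial
    rw [Submodule.mem_span_range_iff_exists_fun] at hD'
    obtain ⟨c, hc⟩ := hD'
    rw [Fin.sum_univ_three] at hc
    exact ⟨c 0, c 1, c 2, hc.symm⟩
  have hz : z ≠ 0 := by
    rintro rfl
    refine not_on P L hP hL hPi hLi hE (Sum.inl 0) (Sum.inr (1, 1)) (by decide)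
      (by decide) (by decide) (by decide) (by decide) (by decide) (by decide) hA hA0 hB hB0 hD hD0 ?_
    rw [Submodule.mem_span_pair]
    exact ⟨x, y, by rw [hxyz]; module⟩
  have hy : y ≠ 0 := by
    rintro rfl
    refine not_on P L hP hL hPi hLi hE (Sum.inr (0, 0)) (Sum.inr (1, 1)) (by decide)
      (by decide) (by decide) (by decide) (by decide) (by decide) (by decide) hA hA0 hC hC0 hD hD0 ?_
    rw [Submodule.mem_span_pair]
    exact ⟨x, z, by rw [hxyz]; module⟩
  have hx : x ≠ 0 := by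
    rintro rfl
    refine not_on P L hP hL hPi hLi hE (Sum.inr (1, 0)) (Sum.inr (2, 1)) (by decide)
      (by decide) (by decide) (by decide) (by decide) (by decide) (by decide) hB hB0 hC hC0 hD hD0 ?_
    rw [Submodule.mem_span_pair]
    exact ⟨y, z, by rw [hxyz]; module⟩
  -- normalisation
  obtain ⟨A, hAe⟩ : ∃ A, A = x • A₀ := ⟨_, rfl⟩
  obtain ⟨B, hBe⟩ : ∃ B, B = y • B₀ := ⟨_, rfl⟩
  obtain ⟨C, hCe⟩ : ∃ C, C = z • C₀ := ⟨_, rfl⟩
  have cmp : ∀ a b c a' b' c' : F, a • A + b • B + c • C = a' • A + b' • B + c' • C → a = a' ∧ b = b' ∧ c = c' := by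
    intro a b c a' b' c' h
    have h1 : ((a - a') * x) • A₀ + ((b - b') * y) • B₀ + ((c - c') * z) • C₀ = 0 := by
      rw [hAe, hBe, hCe] at h
      linear_combination (norm := module) h
    obtain ⟨h2, h3, h4⟩ := hABC _ _ _ h1
    exact ⟨sub_eq_zero.mp ((mul_eq_zero.mp h2).resolve_right hx),
      sub_eq_zero.mp ((mul_eq_zero.mp h3).resolve_right hy),
      sub_eq_zero.mp ((mul_eq_zero.mp h4).resolve_right hz)⟩
  have hA' : A ∈ P (0, 0) := by rw [hAe]; exact Submodule.smul_mem _ _ hA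
  have hB' : B ∈ P (0, 1) := by rw [hBe]; exact Submodule.smul_mem _ _ hB
  have hC' : C ∈ P (1, 0) := by rw [hCe]; exact Submodule.smul_mem _ _ hC
  have hA0' : A ≠ 0 := by rw [hAe]; exact smul_ne_zero hx hA0
  have hB0' : B ≠ 0 := by rw [hBe]; exact smul_ne_zero hy hB0
  have hC0' : C ≠ 0 := by rw [hCe]; exact smul_ne_zero hz hC0
  have hDe : D₀ = A + B + C := by rw [hxyz, hAe, hBe, hCe]
  rw [hDe] at hD hD0
  clear hxyz hAe hBe hCe hABC hDe nAB
  -- the fifth point
  obtain ⟨t, hE1, hE10⟩ := third P L hP hL hPi hE (x := (1, 1)) (y := (0, 0)) (z := (2, 2)) (Sum.inr (1, 1))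
    (by decide) (by decide) (by decide) (by decide) (by decide) (by decide) hD hD0 hA' hA0'
  obtain ⟨s, hE2, hE20⟩ := third P L hP hL hPi hE (x := (0, 1)) (y := (1, 0)) (z := (2, 2)) (Sum.inr (1, 0))
    (by decide) (by decide) (by decide) (by decide) (by decide) (by decide) hB' hB0' hC' hC0'
  obtain ⟨c, hc⟩ := prop P hP hE2 hE20 hE1
  obtain ⟨h1, h2, h3⟩ := cmp (1 + t) 1 1 0 c (c * s) (by linear_combination (norm := module) hc)
  have hs : s = 1 := by rw [← h2, one_mul] at h3; exact h3.symm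
  subst hs
  rw [one_smul] at hE2 hE20
  clear hE1 hE10 hc h1 h2 h3
  -- the other points
  obtain ⟨f, hF, hF0⟩ := third P L hP hL hPi hE (x := (0, 0)) (y := (0, 1)) (z := (0, 2)) (Sum.inl 0)
    (by decide) (by decide) (by decide) (by decide) (by decide) (by decide) hA' hA0' hB' hB0'
  obtain ⟨g, hG, hG0⟩ := third P L hP hL hPi hE (x := (0, 0)) (y := (1, 0)) (z := (2, 0)) (Sum.inr (0, 0))
    (by decide) (by decide) (by decide) (by decide) (by decide) (by decide) hA' hA0' hC' hC0'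
  obtain ⟨i, hI, hI0⟩ := third P L hP hL hPi hE (x := (1, 1)) (y := (1, 0)) (z := (1, 2)) (Sum.inl 1)
    (by decide) (by decide) (by decide) (by decide) (by decide) (by decide) hD hD0 hC' hC0'
  obtain ⟨j, hJ, hJ0⟩ := third P L hP hL hPi hE (x := (1, 1)) (y := (0, 1)) (z := (2, 1)) (Sum.inr (2, 1))
    (by decide) (by decide) (by decide) (by decide) (by decide) (by decide) hD hD0 hB' hB0'
  -- the relations
  obtain ⟨t1, h1, h10⟩ := third P L hP hL hPi hE (x := (2, 2)) (y := (0, 2)) (z := (1, 2)) (Sum.inr (1, 2))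
    (by decide) (by decide) (by decide) (by decide) (by decide) (by decide) hE2 hE20 hF hF0
  obtain ⟨c1, hc1⟩ := prop P hP hI hI0 h1
  obtain ⟨a1, a2, a3⟩ := cmp t1 (1 + t1 * f) 1 c1 c1 (c1 * (1 + i)) (by linear_combination (norm := module) hc1)
  obtain ⟨t3, h3, h30⟩ := third P L hP hL hPi hE (x := (1, 0)) (y := (2, 1)) (z := (0, 2)) (Sum.inr (2, 0))
    (by decide) (by decide) (by decide) (by decide) (by decide) (by decide) hC' hC0' hJ hJ0
  obtain ⟨c3, hc3⟩ := prop P hP hF hF0 h3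
  obtain ⟨b1, b2, b3⟩ := cmp t3 (t3 * (1 + j)) (1 + t3) c3 (c3 * f) 0 (by linear_combination (norm := module) hc3)
  obtain ⟨t5, h5, h50⟩ := third P L hP hL hPi hE (x := (0, 0)) (y := (2, 1)) (z := (1, 2)) (Sum.inr (2, 2))
    (by decide) (by decide) (by decide) (by decide) (by decide) (by decide) hA' hA0' hJ hJ0
  obtain ⟨c5, hc5⟩ := prop P hP hI hI0 h5
  obtain ⟨d1, d2, d3⟩ := cmp (1 + t5) (t5 * (1 + j)) t5 c5 c5 (c5 * (1 + i)) (by linear_combination (norm := module) hc5)
  -- `1 + i = 1 - f`, `1 + j = f`, `(1 + i) (1 + j) = 1`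
  subst a1
  have e1 : 1 + i = 1 - f := by
    have h6 : t1 * (1 - f) = 1 := by linear_combination -a2
    have h7 : t1 * ((1 + i) - (1 - f)) = 0 := by linear_combination -a3 - h6
    have h8 : t1 ≠ 0 := by
      rintro rfl
      simp at a3
    exact sub_eq_zero.mp ((mul_eq_zero.mp h7).resolve_left h8)
  have e2 : 1 + j = f := by
    have h6 : t3 = -1 := by linear_combination b3
    rw [← b1, h6] at b2
    linear_combination -b2
  have hc5' : c5 ≠ 0 := by
    rintro rfl
    rw [zero_mul] at d3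
    rw [d3] at d1
    simp at d1
  refine ⟨f, ?_⟩
  rw [← e1]
  nth_rw 1 [← e2]
  have h9 : c5 * ((1 + j) * (1 + i) - 1) = 0 := by
    rw [d3] at d2
    linear_combination d2
  exact sub_eq_zero.mp ((mul_eq_zero.mp h9).resolve_left hc5')

end necessity

section sufficiency

variable {F : Type} [Field F] (ω : F) (hω : ω ^ 2 + ω + 1 = 0) (h3 : (3 : F) ≠ 0)

/-- powers of `ω` -/
def pw (ω : F) (k : ZMod 3) : F := ω ^ k.val

include hω in
theorem cube : ω ^ 3 = 1 := by linear_combination (ω - 1) * hω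

include hω h3 in
theorem ne_one : ω ≠ 1 := by
  rintro rfl
  apply h3
  linear_combination hω

include hω in
theorem ω_ne_zero : ω ≠ 0 := by
  rintro rfl
  simp at hω

include hω in
theorem pw_add (a b : ZMod 3) : pw ω (a + b) = pw ω a * pw ω b := by
  unfold pw
  rw [ZMod.val_add, ← pow_add]
  conv_rhs => rw [← Nat.mod_add_div (a.val + b.val) 3, pow_add, pow_mul, cube ω hω, one_pow, mul_one]

include hω h3 in
theorem pw_inj {a b : ZMod 3} (h : pw ω a = pw ω b) : a = b := by
  have h0 := ω_ne_zero ω hω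
  have h1 := ne_one ω hω h3
  have h2 : ω ^ 2 ≠ 1 := by
    intro h2
    apply h1
    have := cube ω hω
    rw [pow_succ, h2, one_mul] at this
    exact this
  have h4 : ω ^ 2 ≠ ω := by
    intro h4
    apply h1
    have : ω * (ω - 1) = 0 := by linear_combination h4
    exact sub_eq_zero.mp ((mul_eq_zero.mp this).resolve_left h0)
  have e0 : pw ω 0 = 1 := by simp [pw]
  have e1 : pw ω 1 = ω := by
    have : (1 : ZMod 3).val = 1 := rfl
    rw [pw, this, pow_one]
  have e2 : pw ω 2 = ω ^ 2 := by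
    have : (2 : ZMod 3).val = 2 := rfl
    rw [pw, this]
  have hcase : ∀ a : ZMod 3, a = 0 ∨ a = 1 ∨ a = 2 := by decide
  rcases hcase a with rfl | rfl | rfl <;> rcases hcase b with rfl | rfl | rfl <;>
    simp only [e0, e1, e2] at h <;> first | rfl | exact absurd h (by tauto)

/-- coordinates of the points and of the lines -/
def pt (ω : F) : ZMod 3 × ZMod 3 → Fin 3 → F := fun x =>
  if x.1 = 0 then ![0, 1, -pw ω x.2] else if x.1 = 1 then ![-pw ω x.2, 0, 1] else ![1, -pw ω x.2, 0]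

def ln (ω : F) : ZMod 3 ⊕ (ZMod 3 × ZMod 3) → Fin 3 → F
  | Sum.inl j => if j = 0 then ![1, 0, 0] else if j = 1 then ![0, 1, 0] else ![0, 0, 1]
  | Sum.inr (a, b) => ![1, pw ω a, pw ω b]

include hω h3 in
theorem dot_iff (x : ZMod 3 × ZMod 3) (y : ZMod 3 ⊕ (ZMod 3 × ZMod 3)) :
    dotProduct (ln ω y) (pt ω x) = 0 ↔ Hes x y := by
  obtain ⟨i, k⟩ := x
  have hcase : ∀ a : ZMod 3, a = 0 ∨ a = 1 ∨ a = 2 := by decide
  have hne : ∀ a : ZMod 3, pw ω a ≠ 0 := fun a => pow_ne_zero _ (ω_ne_zero ω hω)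
  have c10 : (1 : ZMod 3) ≠ 0 := by decide
  have c20 : (2 : ZMod 3) ≠ 0 := by decide
  have c21 : (2 : ZMod 3) ≠ 1 := by decide
  have e0 : pw ω 0 = 1 := by simp [pw]
  rcases y with j | ⟨a, b⟩
  · rcases hcase i with rfl | rfl | rfl <;> rcases hcase j with rfl | rfl | rfl <;>
      simp [ln, pt, Hes, dotProduct, Fin.sum_univ_three, c10, c20, c21, c10.symm, c20.symm, c21.symm, hne]
  · rcases hcase i with rfl | rfl | rfl
    · have h1 : dotProduct (ln ω (Sum.inr (a, b))) (pt ω (0, k)) = pw ω a - pw ω (b + k) := by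
        rw [pw_add ω hω]
        simp [ln, pt, dotProduct, Fin.sum_univ_three]
        ring
      rw [h1, sub_eq_zero]
      constructor
      · exact fun h => Or.inl ⟨rfl, pw_inj ω hω h3 h⟩
      · rintro (⟨_, h⟩ | ⟨h, _⟩ | ⟨h, _⟩)
        · rw [h]
        · exact absurd h c10.symm
        · exact absurd h c20.symm
    · have h1 : dotProduct (ln ω (Sum.inr (a, b))) (pt ω (1, k)) = pw ω b - pw ω k := by
        simp [ln, pt, dotProduct, Fin.sum_univ_three, c10]
        ring
      rw [h1, sub_eq_zero]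
      constructor
      · exact fun h => Or.inr (Or.inl ⟨rfl, pw_inj ω hω h3 h⟩)
      · rintro (⟨h, _⟩ | ⟨_, h⟩ | ⟨h, _⟩)
        · exact absurd h c10
        · rw [h]
        · exact absurd h c21.symm
    · have h1 : dotProduct (ln ω (Sum.inr (a, b))) (pt ω (2, k)) = pw ω 0 - pw ω (a + k) := by
        rw [pw_add ω hω, e0]
        simp [ln, pt, dotProduct, Fin.sum_univ_three, c20, c21]
        ring
      rw [h1, sub_eq_zero]
      constructor
      · exact fun h => Or.inr (Or.inr ⟨rfl, (pw_inj ω hω h3 h).symm⟩)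
      · rintro (⟨h, _⟩ | ⟨h, _⟩ | ⟨_, h⟩)
        · exact absurd h c20
        · exact absurd h c21
        · rw [h]

theorem pt_ne_zero (x : ZMod 3 × ZMod 3) : pt ω x ≠ 0 := by
  intro h
  unfold pt at h
  split_ifs at h
  · have := congrFun h 1
    simp at this
  · have := congrFun h 2
    simp at this
  · have := congrFun h 0
    simp at this

theorem ln_ne_zero (y : ZMod 3 ⊕ (ZMod 3 × ZMod 3)) : ln ω y ≠ 0 := by
  intro h
  rcases y with j | ⟨a, b⟩
  · simp only [ln] at h
    split_ifs at h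
    · have := congrFun h 0
      simp at this
    · have := congrFun h 1
      simp at this
    · have := congrFun h 2
      simp at this
  · have := congrFun h 0
    simp [ln] at this

/-- the functional given by a line -/
def fn (ω : F) (y : ZMod 3 ⊕ (ZMod 3 × ZMod 3)) : Module.Dual F (Fin 3 → F) where
  toFun v := dotProduct (ln ω y) v
  map_add' := dotProduct_add _
  map_smul' c v := by simp

theorem fn_ne_zero (y : ZMod 3 ⊕ (ZMod 3 × ZMod 3)) : fn ω y ≠ 0 := by
  intro h
  apply ln_ne_zero ω y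
  funext i
  have := LinearMap.congr_fun h (Pi.single i 1)
  simpa [fn] using this

theorem ker_finrank (y : ZMod 3 ⊕ (ZMod 3 × ZMod 3)) : finrank F (LinearMap.ker (fn ω y)) = 2 := by
  have h := Module.Dual.finrank_ker_add_one_of_ne_zero (fn_ne_zero ω y)
  simp at h
  omega

include hω h3 in
theorem le_iff (x : ZMod 3 × ZMod 3) (y : ZMod 3 ⊕ (ZMod 3 × ZMod 3)) :
    Submodule.span F {pt ω x} ≤ LinearMap.ker (fn ω y) ↔ Hes x y := by
  rw [Submodule.span_singleton_le_iff_mem, LinearMap.mem_ker, ← dot_iff ω hω h3]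
  rfl

end sufficiency

theorem sep_points : ∀ x x' : ZMod 3 × ZMod 3, (∀ y, Hes x y → Hes x' y) → x = x' := by decide

theorem sep_lines : ∀ y y' : ZMod 3 ⊕ (ZMod 3 × ZMod 3), (∀ x, Hes x y → Hes x y') → y = y' := by decide

theorem exists_root (p : ℕ) [Fact p.Prime] (hp : p % 3 = 1) : ∃ ω : ZMod p, ω ^ 2 + ω + 1 = 0 := by
  have hp' : p.Prime := Fact.out
  have hd : 3 ∣ Nat.card (ZMod p)ˣ := by
    rw [Nat.card_eq_fintype_card, ZMod.card_units_eq_totient, Nat.totient_prime hp']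
    omega
  have : Fact (Nat.Prime 3) := ⟨by norm_num⟩
  obtain ⟨x, hx⟩ := exists_prime_orderOf_dvd_card' 3 hd
  refine ⟨x, ?_⟩
  have h1 : (x : ZMod p) ^ 3 = 1 := by
    have := pow_orderOf_eq_one x
    rw [hx] at this
    rw [← Units.val_pow_eq_pow_val, this, Units.val_one]
  have h2 : (x : ZMod p) ≠ 1 := by
    intro h
    have : x = 1 := Units.ext h
    rw [this, orderOf_one] at hx
    omega
  have h3 : ((x : ZMod p) - 1) * ((x : ZMod p) ^ 2 + x + 1) = 0 := by linear_combination h1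
  exact (mul_eq_zero.mp h3).resolve_left (sub_ne_zero.mpr h2)

theorem three_ne_zero' (p : ℕ) [Fact p.Prime] (hp : p % 3 ≠ 0) : (3 : ZMod p) ≠ 0 := by
  have hp' : p.Prime := Fact.out
  intro h
  have h1 : ((3 : ℕ) : ZMod p) = 0 := by exact_mod_cast h
  rw [ZMod.natCast_eq_zero_iff] at h1
  have := (Nat.prime_dvd_prime_iff_eq hp' (by norm_num)).mp h1
  omega

theorem inj_zero (p : ℕ) [Fact p.Prime] (hp : p % 3 = 2) : inj Hes p = 0 := by
  unfold inj
  rw [Nat.card_eq_zero]
  left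
  refine ⟨fun f => ?_⟩
  obtain ⟨⟨P, L⟩, hP, hL, hE⟩ := f
  obtain ⟨f, hf⟩ := root (fun x => (P x).1) (fun y => (L y).1) (fun x => (P x).2) (fun y => (L y).2)
    (fun x x' h => hP (Subtype.ext h)) (fun x x' h => hL (Subtype.ext h)) hE
  have h3 := three_ne_zero' p (by omega)
  have hω : (-f) ^ 2 + (-f) + 1 = 0 := by linear_combination -hf
  have hc := cube (-f) hω
  have h1 := ne_one (-f) hω h3
  have : Fact (Nat.Prime 3) := ⟨by norm_num⟩
  have ho : orderOf (-f) = 3 := orderOf_eq_prime hc h1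
  have hd := ZMod.orderOf_dvd_card_sub_one (ω_ne_zero (-f) hω)
  rw [ho] at hd
  have hp' : p.Prime := Fact.out
  have := hp'.two_le
  omega

theorem inj_pos (p : ℕ) [Fact p.Prime] (hp : p % 3 = 1) : 0 < inj Hes p := by
  obtain ⟨ω, hω⟩ := exists_root p hp
  have h3 := three_ne_zero' p (by omega)
  have hfin : ∀ d, Finite (PG (ZMod p) d) := fun d => by
    unfold PG
    have : Finite (Submodule (ZMod p) (Fin 3 → ZMod p)) :=
      Finite.of_injective (fun W : Submodule (ZMod p) (Fin 3 → ZMod p) => (W : Set (Fin 3 → ZMod p)))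
        SetLike.coe_injective
    infer_instance
  have := hfin 1
  have := hfin 2
  unfold inj
  rw [Nat.card_pos_iff]
  refine ⟨⟨⟨(fun x => ⟨Submodule.span _ {pt ω x}, finrank_span_singleton (pt_ne_zero ω x)⟩,
    fun y => ⟨LinearMap.ker (fn ω y), ker_finrank ω y⟩), ?_, ?_, ?_⟩⟩, inferInstance⟩
  · intro x x' h
    have h' : Submodule.span (ZMod p) {pt ω x} = Submodule.span (ZMod p) {pt ω x'} := congrArg Subtype.val h
    apply sep_points
    intro y hy
    rw [← le_iff ω hω h3, ← h', le_iff ω hω h3]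
    exact hy
  · intro y y' h
    have h' : LinearMap.ker (fn ω y) = LinearMap.ker (fn ω y') := congrArg Subtype.val h
    apply sep_lines
    intro x hx
    rw [← le_iff ω hω h3, ← h', le_iff ω hω h3]
    exact hx
  · intro x y hxy
    exact (le_iff ω hω h3 x y).mpr hxy

theorem frequently_class (a : ZMod 3) (ha : IsUnit a) : ∃ᶠ k in atTop, ((pr k : ℕ) : ZMod 3) = a := by
  rw [Filter.frequently_atTop]
  intro K
  obtain ⟨p, hp1, hp2, hp3⟩ := Nat.forall_exists_prime_gt_and_eq_mod ha (pr K)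
  refine ⟨Nat.count Nat.Prime p, ?_, ?_⟩
  · have h1 : pr K < Nat.nth Nat.Prime (Nat.count Nat.Prime p) := by rwa [Nat.nth_count hp2]
    exact ((Nat.nth_lt_nth Nat.infinite_setOfPred_prime).mp h1).le
  · rw [pr, Nat.nth_count hp2]
    exact hp3

/-- There is a bipartite graph `H` with at least one edge (the incidence graph of the Hesse configuration) such that
`inj(H, G_p) = 0` for all primes `p ≡ 2 (mod 3)` and `inj(H, G_p) > 0` for all primes `p ≡ 1 (mod 3)`. In particular the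
sequence `log_p inj(H, G_p)`, with `p` running through the primes, has no limit in `[-∞, ∞]`. -/
theorem result : ∃ (V₁ V₂ : Type) (_ : Fintype V₁) (_ : Fintype V₂) (E : V₁ → V₂ → Prop), (∃ x y, E x y) ∧
    (∀ (p : ℕ) [Fact p.Prime], p % 3 = 2 → inj E p = 0) ∧
    (∀ (p : ℕ) [Fact p.Prime], p % 3 = 1 → 0 < inj E p) ∧
    ¬ ∃ l : EReal, Tendsto (fun k => logE (pr k) (inj E (pr k))) atTop (𝓝 l) := by
  refine ⟨_, _, inferInstance, inferInstance, Hes, ⟨(0, 0), Sum.inl 0, rfl⟩, fun p _ => inj_zero p,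
    fun p _ => inj_pos p, ?_⟩
  rintro ⟨l, hl⟩
  have hmod : ∀ (n a : ℕ), (n : ZMod 3) = (a : ZMod 3) → n % 3 = a % 3 := fun n a h =>
    (ZMod.natCast_eq_natCast_iff' n a 3).mp h
  have hbot : ∃ᶠ k in atTop, logE (pr k) (inj Hes (pr k)) = ⊥ := by
    refine (frequently_class ((2 : ℕ) : ZMod 3) (by decide)).mono fun k hk => ?_
    have h1 := hmod _ _ hk
    rw [inj_zero (pr k) (by omega), logE, if_pos rfl]
  have hnn : ∃ᶠ k in atTop, 0 ≤ logE (pr k) (inj Hes (pr k)) := by
    refine (frequently_class ((1 : ℕ) : ZMod 3) (by decide)).mono fun k hk => ?_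
    have h1 := hmod _ _ hk
    have h2 := inj_pos (pr k) (by omega)
    rw [logE, if_neg h2.ne']
    have h3 : (1 : ℝ) < pr k := by exact_mod_cast (Nat.prime_nth_prime k).one_lt
    exact_mod_cast Real.logb_nonneg h3 (by exact_mod_cast h2)
  rcases eq_or_ne l ⊥ with rfl | hne
  · have h1 : ∀ᶠ k in atTop, logE (pr k) (inj Hes (pr k)) < 0 :=
      hl.eventually (gt_mem_nhds (EReal.bot_lt_zero))
    obtain ⟨k, h2, h3⟩ := (hnn.and_eventually h1).exists
    exact absurd h3 (not_lt.mpr h2)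
  · have h1 : ∀ᶠ k in atTop, ⊥ < logE (pr k) (inj Hes (pr k)) :=
      hl.eventually (lt_mem_nhds (bot_lt_iff_ne_bot.mpr hne))
    obtain ⟨k, h2, h3⟩ := (hbot.and_eventually h1).exists
    exact absurd h3 (by rw [h2]; exact lt_irrefl _)

end Pool.Agent.Results.MP_5e7574_co.HesseConfiguration
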